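import Pool.Agent.Q195.SP.Emb

/-!
MP_6ed805_an: uniform stable phase retrieval constants for self-embeddings of `C[1, ω ^ α]`.
-/

set_option linter.unusedSectionVars false
set_option linter.unusedVariables false

namespace Pool.Agent.Results.MP_6ed805_an.UniformConstant

open Filter Topology Set Pool.Agent.Q195.SP

/-- the ordinal interval `[1, ω ^ α]` with the order topology -/
abbrev Int (α : ℕ) : Type 1 := Set.Icc (1 : Ordinal.{0}) (Ordinal.omega0 ^ (α : Ordinal.{0}))

/-- a set `E` of functions does `c`-stable phase retrieval -/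
def IsSPR {X : Type*} [TopologicalSpace X] [CompactSpace X] (c : ℝ) (E : Set C(X, ℝ)) : Prop :=
  ∀ f ∈ E, ∀ g ∈ E, min ‖f - g‖ ‖f + g‖ ≤ c * ‖|f| - |g|‖

/-! ### the intervals and the spaces `K r` -/

/-- the map to the ordinals -/
noncomputable def theta : ∀ r : ℕ, K r → Ordinal.{0}
  | 0, _ => 1
  | (r + 1), x => OnePoint.elim (X := ℕ × K r) x (Ordinal.omega0 ^ ((r + 1 : ℕ) : Ordinal.{0}))
      (fun p => Ordinal.omega0 ^ (r : Ordinal.{0}) * (p.1 : Ordinal.{0}) + theta r p.2)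

lemma theta_top (r : ℕ) : theta r (top r) = Ordinal.omega0 ^ (r : Ordinal.{0}) := by
  cases r with
  | zero => simp [theta]
  | succ r => rfl

lemma theta_inc {r : ℕ} (n : ℕ) (x : K r) :
    theta (r + 1) (inc n x) = Ordinal.omega0 ^ (r : Ordinal.{0}) * (n : Ordinal.{0}) + theta r x :=
  rfl

lemma pow_succ' (r : ℕ) : (Ordinal.omega0 ^ ((r + 1 : ℕ) : Ordinal.{0}) : Ordinal.{0}) =
    Ordinal.omega0 ^ (r : Ordinal.{0}) * Ordinal.omega0 := by
  rw [Nat.cast_succ, Ordinal.opow_add, Ordinal.opow_one]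

lemma pow_pos' (r : ℕ) : (0 : Ordinal.{0}) < Ordinal.omega0 ^ (r : Ordinal.{0}) :=
  Ordinal.opow_pos _ Ordinal.omega0_pos

lemma block_lt (r n : ℕ) : Ordinal.omega0 ^ (r : Ordinal.{0}) * (n : Ordinal.{0}) +
    Ordinal.omega0 ^ (r : Ordinal.{0}) < Ordinal.omega0 ^ ((r + 1 : ℕ) : Ordinal.{0}) := by
  have h : Ordinal.omega0 ^ (r : Ordinal.{0}) * (n : Ordinal.{0}) +
      Ordinal.omega0 ^ (r : Ordinal.{0}) =
      Ordinal.omega0 ^ (r : Ordinal.{0}) * ((n + 1 : ℕ) : Ordinal.{0}) := by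
    rw [Nat.cast_succ, mul_add, mul_one]
  rw [h, pow_succ']
  exact mul_lt_mul_of_pos_left (Ordinal.natCast_lt_omega0 _) (pow_pos' r)

lemma theta_bd : ∀ (r : ℕ) (x : K r), 1 ≤ theta r x ∧ theta r x ≤ Ordinal.omega0 ^ (r : Ordinal.{0})
  | 0, x => by simp [theta]
  | (r + 1), x => by
    rcases cases_succ x with rfl | ⟨n, y, rfl⟩
    · rw [theta_top]
      exact ⟨Order.one_le_iff_pos.2 (pow_pos' _), le_rfl⟩
    · have h := theta_bd r y
      rw [theta_inc]
      refine ⟨h.1.trans (le_add_self), ?_⟩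
      exact ((add_le_add_right h.2 _).trans_lt (block_lt r n)).le

lemma theta_inj : ∀ (r : ℕ), Function.Injective (theta r)
  | 0, x, y, _ => (eq_top_zero x).trans (eq_top_zero y).symm
  | (r + 1), x, y, h => by
    have key : ∀ (n m : ℕ) (x y : K r), n < m → theta (r + 1) (inc n x) ≠ theta (r + 1) (inc m y) := by
      intro n m x y hnm heq
      rw [theta_inc, theta_inc] at heq
      have h1 : Ordinal.omega0 ^ (r : Ordinal.{0}) * (n : Ordinal.{0}) + theta r x ≤
          Ordinal.omega0 ^ (r : Ordinal.{0}) * (m : Ordinal.{0}) := by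
        refine (add_le_add_right (theta_bd r x).2 _).trans ?_
        have h : Ordinal.omega0 ^ (r : Ordinal.{0}) * (n : Ordinal.{0}) +
            Ordinal.omega0 ^ (r : Ordinal.{0}) =
            Ordinal.omega0 ^ (r : Ordinal.{0}) * ((n + 1 : ℕ) : Ordinal.{0}) := by
          rw [Nat.cast_succ, mul_add, mul_one]
        rw [h]
        exact (Ordinal.isNormal_mul_right (pow_pos' r)).strictMono.monotone (by exact_mod_cast hnm)
      rw [heq] at h1
      have h2 : Ordinal.omega0 ^ (r : Ordinal.{0}) * (m : Ordinal.{0}) <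
          Ordinal.omega0 ^ (r : Ordinal.{0}) * (m : Ordinal.{0}) + theta r y :=
        lt_add_of_pos_right _ (Order.one_le_iff_pos.1 (theta_bd r y).1)
      exact absurd h1 (not_le.2 h2)
    have key2 : ∀ (n : ℕ) (x : K r), theta (r + 1) (inc n x) ≠ theta (r + 1) (top (r + 1)) := by
      intro n x
      rw [theta_inc, theta_top]
      exact ((add_le_add_right (theta_bd r x).2 _).trans_lt (block_lt r n)).ne
    rcases cases_succ x with rfl | ⟨n, x, rfl⟩
    · rcases cases_succ y with rfl | ⟨m, y, rfl⟩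
      · rfl
      · exact absurd h.symm (key2 _ _)
    · rcases cases_succ y with rfl | ⟨m, y, rfl⟩
      · exact absurd h (key2 _ _)
      · rcases lt_trichotomy n m with hnm | hnm | hnm
        · exact absurd h (key _ _ _ _ hnm)
        · subst hnm
          rw [theta_inc, theta_inc] at h
          rw [theta_inj r (add_left_cancel h)]
        · exact absurd h.symm (key _ _ _ _ hnm)

lemma theta_surj : ∀ (r : ℕ) (o : Ordinal.{0}), 1 ≤ o → o ≤ Ordinal.omega0 ^ (r : Ordinal.{0}) →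
    ∃ x, theta r x = o
  | 0, o, h1, h2 => ⟨top 0, by
      rw [theta_top]
      refine le_antisymm ?_ h2
      simpa using h1⟩
  | (r + 1), o, h1, h2 => by
    rcases h2.eq_or_lt with rfl | h2
    · exact ⟨top (r + 1), theta_top _⟩
    have h3 : o / Ordinal.omega0 ^ (r : Ordinal.{0}) < Ordinal.omega0 := by
      rw [Ordinal.div_lt (pow_pos' r).ne', ← pow_succ']
      exact h2
    obtain ⟨n, hn⟩ := Ordinal.lt_omega0.1 h3
    have h4 := Ordinal.div_add_mod o (Ordinal.omega0 ^ (r : Ordinal.{0}))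
    rw [hn] at h4
    rcases eq_or_ne (o % Ordinal.omega0 ^ (r : Ordinal.{0})) 0 with h5 | h5
    · rw [h5, add_zero] at h4
      have hn0 : n ≠ 0 := by
        rintro rfl
        rw [Nat.cast_zero, mul_zero] at h4
        rw [← h4] at h1
        simp at h1
      obtain ⟨n, rfl⟩ := Nat.exists_eq_succ_of_ne_zero hn0
      refine ⟨inc n (top r), ?_⟩
      rw [theta_inc, theta_top, ← h4, Nat.cast_succ, mul_add, mul_one]
    · obtain ⟨x, hx⟩ := theta_surj r (o % Ordinal.omega0 ^ (r : Ordinal.{0}))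
        (Order.one_le_iff_ne_zero.2 h5) (Ordinal.mod_lt _ (pow_pos' r).ne').le
      exact ⟨inc n x, by rw [theta_inc, hx, h4]⟩

lemma theta_cont : ∀ (r : ℕ), Continuous (theta r)
  | 0 => continuous_const
  | (r + 1) => by
    let g : ℕ → C(K r, Ordinal.{0}) := fun n =>
      ⟨fun x => Ordinal.omega0 ^ (r : Ordinal.{0}) * (n : Ordinal.{0}) + theta r x,
        (Ordinal.isNormal_add_right _).continuous.comp (theta_cont r)⟩
    have hg : Conv g (Ordinal.omega0 ^ ((r + 1 : ℕ) : Ordinal.{0})) := by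
      intro N hN
      obtain ⟨γ, hγ, hγN⟩ := exists_Ioc_subset_of_mem_nhds hN ⟨0, pow_pos' _⟩
      rw [pow_succ'] at hγ
      have h1 : γ / Ordinal.omega0 ^ (r : Ordinal.{0}) < Ordinal.omega0 := by
        rw [Ordinal.div_lt (pow_pos' r).ne']
        exact hγ
      obtain ⟨n0, hn0⟩ := Ordinal.lt_omega0.1 h1
      rw [eventually_atTop]
      refine ⟨n0 + 1, fun n hn x => hγN ⟨?_, ?_⟩⟩
      · have h2 : γ < Ordinal.omega0 ^ (r : Ordinal.{0}) * ((n0 + 1 : ℕ) : Ordinal.{0}) := by
          rw [← Ordinal.div_lt (pow_pos' r).ne', hn0]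
          exact_mod_cast Nat.lt_succ_self n0
        refine h2.trans_le (le_trans ?_ (le_self_add))
        exact (Ordinal.isNormal_mul_right (pow_pos' r)).strictMono.monotone (by exact_mod_cast hn)
      · exact ((add_le_add_right (theta_bd r x).2 _).trans_lt (block_lt r n)).le
    exact continuous_glue hg

/-- the homeomorphism -/
noncomputable def homeo (r : ℕ) : K r ≃ₜ Int r :=
  Continuous.homeoOfEquivCompactToT2
    (f := Equiv.ofBijective (fun x => (⟨theta r x, theta_bd r x⟩ : Int r))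
      ⟨fun x y h => theta_inj r (congrArg Subtype.val h), fun o => by
        obtain ⟨x, hx⟩ := theta_surj r o.1 o.2.1 o.2.2
        exact ⟨x, Subtype.ext hx⟩⟩)
    ((theta_cont r).subtype_mk _)

lemma min_abs (a b : ℝ) : min |a - b| |a + b| ≤ |(|a| - |b|)| := by
  rcases le_total 0 a with ha | ha <;> rcases le_total 0 b with hb | hb
  · rw [abs_of_nonneg ha, abs_of_nonneg hb]; exact min_le_left _ _
  · rw [abs_of_nonneg ha, abs_of_nonpos hb, sub_neg_eq_add]; exact min_le_right _ _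
  · rw [abs_of_nonpos ha, abs_of_nonneg hb, ← abs_neg (-a - b)]
    rw [show -(-a - b) = a + b by ring]
    exact min_le_right _ _
  · rw [abs_of_nonpos ha, abs_of_nonpos hb, ← abs_neg (-a - -b)]
    rw [show -(-a - -b) = a - b by ring]
    exact min_le_left _ _

/-- MP_6ed805_an, Q1: yes. With `c = 51`, for every finite `α ≥ 3` there is a linear isometric
embedding of `C[1, ω ^ α]` into itself whose range does `c`-stable phase retrieval. -/
theorem result : ∃ c : ℝ, 1 ≤ c ∧ ∀ α : ℕ, 3 ≤ α →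
    ∃ T : C(Int α, ℝ) →ₗᵢ[ℝ] C(Int α, ℝ), IsSPR c (Set.range T) := by
  refine ⟨51, by norm_num, fun α hα => ?_⟩
  obtain ⟨T, hT1, hT2⟩ := main_K hα
  let Φ := homeo α
  let p : C(Int α, ℝ) →ₗ[ℝ] C(K α, ℝ) := pull ⟨Φ, Φ.continuous⟩
  let p' : C(K α, ℝ) →ₗ[ℝ] C(Int α, ℝ) := pull ⟨Φ.symm, Φ.symm.continuous⟩
  have hp : ∀ f, ‖p f‖ = ‖f‖ := by
    intro f
    apply le_antisymm
    · rw [ContinuousMap.norm_le _ (norm_nonneg _)]
      intro x
      exact ContinuousMap.norm_coe_le_norm f _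
    · rw [ContinuousMap.norm_le _ (norm_nonneg _)]
      intro x
      have := ContinuousMap.norm_coe_le_norm (p f) (Φ.symm x)
      have h2 : p f (Φ.symm x) = f x := by
        show f (Φ (Φ.symm x)) = f x
        rw [Φ.apply_symm_apply]
      rwa [h2] at this
  have hp' : ∀ f, ‖p' f‖ = ‖f‖ := by
    intro f
    apply le_antisymm
    · rw [ContinuousMap.norm_le _ (norm_nonneg _)]
      intro x
      exact ContinuousMap.norm_coe_le_norm f _
    · rw [ContinuousMap.norm_le _ (norm_nonneg _)]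
      intro x
      have := ContinuousMap.norm_coe_le_norm (p' f) (Φ x)
      have h2 : p' f (Φ x) = f x := by
        show f (Φ.symm (Φ x)) = f x
        rw [Φ.symm_apply_apply]
      rwa [h2] at this
  let T' : C(Int α, ℝ) →ₗᵢ[ℝ] C(Int α, ℝ) :=
    { toLinearMap := p'.comp (T.comp p)
      norm_map' := fun f => by
        show ‖p' (T (p f))‖ = ‖f‖
        rw [hp', hT1, hp] }
  refine ⟨T', ?_⟩
  rintro _ ⟨f, rfl⟩ _ ⟨g, rfl⟩
  set μ := min ‖T' f - T' g‖ ‖T' f + T' g‖ with hμ
  rcases le_or_gt μ 0 with h0 | h0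
  · exact h0.trans (by positivity)
  have e1 : ‖T' f - T' g‖ = ‖p (f - g)‖ := by
    rw [← map_sub, T'.norm_map, hp]
  have e2 : ‖T' f + T' g‖ = ‖p (f + g)‖ := by
    rw [← map_add, T'.norm_map, hp]
  obtain ⟨z, hz1, hz2⟩ := hT2 (p (f - g)) (p (f + g)) μ h0
    (by rw [← e1]; exact min_le_left _ _) (by rw [← e2]; exact min_le_right _ _)
  have e3 : T (p (f - g)) z = T' f (Φ z) - T' g (Φ z) := by
    show T (p (f - g)) z = T (p f) (Φ.symm (Φ z)) - T (p g) (Φ.symm (Φ z))
    rw [Φ.symm_apply_apply, map_sub, map_sub]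
    rfl
  have e4 : T (p (f + g)) z = T' f (Φ z) + T' g (Φ z) := by
    show T (p (f + g)) z = T (p f) (Φ.symm (Φ z)) + T (p g) (Φ.symm (Φ z))
    rw [Φ.symm_apply_apply, map_add, map_add]
    rfl
  rw [e3] at hz1
  rw [e4] at hz2
  have h5 := (le_min hz1 hz2).trans (min_abs _ _)
  have h6 : |(|T' f (Φ z)| - |T' g (Φ z)|)| ≤ ‖|T' f| - |T' g|‖ :=
    ContinuousMap.norm_coe_le_norm (|T' f| - |T' g|) (Φ z)
  linarith

end Pool.Agent.Results.MP_6ed805_an.UniformConstant
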